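import Mathlib
set_option autoImplicit false

/-! Numerical choices. -/

namespace W860.PC

theorem log_bounds : (0.69 : ℝ) < Real.log 2 ∧ Real.log 2 < 0.6932 := by
  have h1 := Real.log_two_gt_d9
  have h2 := Real.log_two_lt_d9
  constructor <;> linarith

theorem eta_log {η : ℝ} (hη : 0 < η) : η * Real.log (1 / η) ≤ 0.37 := by
  have h1 := Real.exp_one_mul_le_exp (x := Real.log (1 / η))
  rw [Real.exp_log (by positivity)] at h1
  have h2 : (2.718 : ℝ) ≤ Real.exp 1 := by have := Real.exp_one_gt_d9; linarith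
  by_cases h : Real.log (1 / η) ≤ 0
  · have : η * Real.log (1 / η) ≤ 0 := mul_nonpos_of_nonneg_of_nonpos hη.le h
    linarith
  · push Not at h
    have h3 : 2.718 * Real.log (1 / η) ≤ 1 / η :=
      (mul_le_mul_of_nonneg_right h2 h.le).trans h1
    have h4 : η * (2.718 * Real.log (1 / η)) ≤ η * (1 / η) := mul_le_mul_of_nonneg_left h3 hη.le
    have h5 : η * (1 / η) = 1 := by field_simp
    rw [h5] at h4
    nlinarith

/-- the choice of the scale -/
theorem choose_j {κ η : ℝ} (hκ : 0.69 < κ) (hη : 0 < η) (hη1 : η ≤ 1 / 12) :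
    ∃ j : ℕ, 10000 * (κ / η) * (1 + η) ^ (2 * j) ≤ 2 ^ j ∧
      (1 + η) ^ (2 * j) ≤ (1 + η) ^ 2 * (128 * κ ^ (4 * η)) := by
  classical
  obtain ⟨hl1, hl2⟩ := log_bounds
  have hκ0 : 0 < κ := by linarith
  set Λ : ℝ := 10000 * (κ / η) with hΛ
  have hΛpos : 0 < Λ := by positivity
  have hκη : 1 ≤ κ / η := by
    rw [le_div_iff₀ hη]; linarith
  have hΛ1 : 1 < Λ := by rw [hΛ]; linarith
  have h1η : (0 : ℝ) < 1 + η := by linarith
  have hr : 1 < 2 / (1 + η) ^ 2 := by
    rw [lt_div_iff₀ (by positivity)]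
    nlinarith
  have hex : ∃ j : ℕ, Λ * (1 + η) ^ (2 * j) ≤ 2 ^ j := by
    obtain ⟨n, hn⟩ := pow_unbounded_of_one_lt Λ hr
    refine ⟨n, ?_⟩
    rw [div_pow, lt_div_iff₀ (by positivity)] at hn
    rw [pow_mul]
    exact hn.le
  obtain ⟨j, hj, hmin⟩ : ∃ j : ℕ, Λ * (1 + η) ^ (2 * j) ≤ 2 ^ j ∧
      ∀ i < j, ¬ (Λ * (1 + η) ^ (2 * i) ≤ 2 ^ i) :=
    ⟨Nat.find hex, Nat.find_spec hex, fun i hi => Nat.find_min hex hi⟩
  refine ⟨j, hj, ?_⟩
  have hj0 : j ≠ 0 := by
    rintro rfl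
    simp at hj
    linarith
  obtain ⟨i, rfl⟩ : ∃ i, j = i + 1 := ⟨j - 1, by omega⟩
  have hi := hmin i (by omega)
  push Not at hi
  have e1 : (1 + η) ^ (2 * (i + 1)) = (1 + η) ^ 2 * (1 + η) ^ (2 * i) := by
    rw [← pow_add]; congr 1; ring
  rw [e1]
  apply mul_le_mul_of_nonneg_left _ (by positivity)
  -- logarithms
  have hlogη : Real.log (1 + η) ≤ η := by
    have := Real.log_le_sub_one_of_pos h1η
    linarith
  have hlogη0 : 0 ≤ Real.log (1 + η) := Real.log_nonneg (by linarith)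
  have hlogΛ0 : 0 < Real.log Λ := Real.log_pos hΛ1
  have h1 : (i : ℝ) * Real.log 2 ≤ Real.log Λ + (2 * i) * Real.log (1 + η) := by
    have h2 := Real.log_le_log (by positivity) hi.le
    rw [Real.log_pow, Real.log_mul hΛpos.ne' (by positivity), Real.log_pow] at h2
    push_cast at h2
    exact h2
  have hi0 : (0 : ℝ) ≤ i := Nat.cast_nonneg i
  have h3 : (i : ℝ) * 0.523 ≤ Real.log Λ := by
    have h4 : (i : ℝ) * Real.log (1 + η) ≤ i * (1 / 12) :=
      mul_le_mul_of_nonneg_left (hlogη.trans hη1) hi0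
    have h5 : (i : ℝ) * 0.69 ≤ i * Real.log 2 := mul_le_mul_of_nonneg_left hl1.le hi0
    nlinarith
  have h6 : ((2 * i : ℕ) : ℝ) * Real.log (1 + η) ≤ 4 * η * Real.log Λ := by
    push_cast
    have h7 : (i : ℝ) * Real.log (1 + η) ≤ i * η := mul_le_mul_of_nonneg_left hlogη hi0
    have h8 : (i : ℝ) * 0.523 * η ≤ Real.log Λ * η := mul_le_mul_of_nonneg_right h3 hη.le
    nlinarith [mul_nonneg hi0 hη.le]
  have h9 : Real.log Λ = Real.log 10000 + Real.log κ + Real.log (1 / η) := by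
    rw [hΛ, Real.log_mul (by norm_num) (by positivity), div_eq_mul_one_div,
      Real.log_mul hκ0.ne' (by positivity)]
    ring
  have h10 : Real.log 10000 ≤ 9.71 := by
    have h11 : Real.log 10000 ≤ Real.log (2 ^ 14) := Real.log_le_log (by norm_num) (by norm_num)
    rw [Real.log_pow] at h11
    push_cast at h11
    linarith
  have h12 := eta_log hη
  have h13 : 4 * η * Real.log Λ ≤ 7 * Real.log 2 + 4 * η * Real.log κ := by
    rw [h9]
    have h14 : η * Real.log 10000 ≤ (1 / 12) * 9.71 := by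
      apply mul_le_mul hη1 h10 (Real.log_nonneg (by norm_num)) (by norm_num)
    nlinarith
  calc (1 + η) ^ (2 * i) = Real.exp (((2 * i : ℕ) : ℝ) * Real.log (1 + η)) := by
        rw [Real.exp_nat_mul, Real.exp_log h1η]
    _ ≤ Real.exp (7 * Real.log 2 + 4 * η * Real.log κ) :=
        Real.exp_le_exp.2 (h6.trans h13)
    _ = 128 * κ ^ (4 * η) := by
        rw [Real.exp_add, Real.rpow_def_of_pos hκ0]
        have e2 : Real.exp (7 * Real.log 2) = 128 := by
          rw [show (7 : ℝ) * Real.log 2 = (7 : ℕ) * Real.log 2 by norm_num, Real.exp_nat_mul,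
            Real.exp_log (by norm_num)]
          norm_num
        rw [e2]
        congr 2
        ring

end W860.PC
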