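import Pool.Agent.W860.PC.Lift
set_option autoImplicit false

/-! From a set inside a Bohr set to a convex coset progression of small dimension. -/

namespace W860.PC

open Finset H112
open scoped Pointwise

variable {G : Type*} [AddCommGroup G]

theorem lift_step [DecidableEq G] (S : Set (G →+ UnitAddCircle))
    (hfin : (bohr S (1 / 6)).Finite) {E : Finset G} (hE : E.Nonempty)
    {ρ : ℝ} (hρ0 : 0 < ρ) (hρ : ρ ≤ 1 / 12)
    (hEE : ∀ x ∈ E, ∀ y ∈ E, x - y ∈ bohr S ρ) {K₁ : ℝ}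
    (h3 : ((E + E + E).card : ℝ) ≤ K₁ * E.card) :
    ∃ (d : ℕ) (B : Set (Fin d → ℝ)) (ψ : (Fin d → ℤ) →+ G) (E' : Finset G),
      E' ⊆ E ∧ (E.card : ℝ) ≤ K₁ ^ 185 * E'.card ∧ (d : ℝ) ≤ 480 * Real.log K₁ + 1 ∧
      SymmBody B ∧ Finite (ann S) ∧
      {c : Fin d → ℤ | (fun i => (c i : ℝ)) ∈ B}.ncard * Nat.card (ann S) ≤
        (bohr S (1 / 6)).ncard ∧
      ∀ x ∈ E', ∀ y ∈ E', ∃ c : Fin d → ℤ, (fun i => (c i : ℝ)) ∈ B ∧
        ∃ h ∈ ann S, x - y = ψ c + h := by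
  classical
  obtain ⟨m, N, ψ₀, hN, h1, h2, -⟩ := lattice_repr S hfin hρ0.le (by linarith : ρ ≤ 1 / 6)
  haveI := ann_finite hfin
  obtain ⟨e, he⟩ := hE
  -- choose lifts
  have hch : ∀ x : G, ∃ c : Fin m → ℤ, x ∈ E → c ∈ LL N ρ ∧ (x - e) - ψ₀ c ∈ ann S := by
    intro x
    by_cases hx : x ∈ E
    · obtain ⟨c, hc, hc2⟩ := h2 _ (hEE x hx e he)
      exact ⟨c, fun _ => ⟨hc, hc2⟩⟩
    · exact ⟨0, fun h => absurd h hx⟩
  choose c hc using hch
  -- zero criterion
  have hzero : ∀ z : Fin m → ℤ, z ∈ LL N (4 * ρ) → ψ₀ z ∈ ann S → z = 0 := by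
    intro z hz hz2
    have hlt : N (fun i => (z i : ℝ)) < 1 / 2 := lt_of_le_of_lt hz (by linarith)
    have := (h1 z hlt 0 le_rfl).1 (bohr_zero_of_ann hz2 le_rfl)
    exact LL_zero hN this
  have hLadd : ∀ {a b : ℝ} {x y : Fin m → ℤ}, x ∈ LL N a → y ∈ LL N b → x + y ∈ LL N (a + b) := by
    intro a b x y hx hy
    have h5 : (fun i => (((x + y) i : ℤ) : ℝ)) = (fun i => (x i : ℝ)) + (fun i => (y i : ℝ)) := by
      funext i; simp
    show N _ ≤ a + b
    rw [h5]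
    exact (map_add_le_add N _ _).trans (add_le_add hx hy)
  have hfib : ∀ x ∈ E, ∀ y ∈ E, c x = c y → x - y ∈ ann S := by
    intro x hx y hy hxy
    have h5 := (ann S).sub_mem (hc x hx).2 (hc y hy).2
    rw [hxy] at h5
    have e1 : x - e - ψ₀ (c y) - (y - e - ψ₀ (c y)) = x - y := by abel
    rwa [e1] at h5
  have hiso : ∀ x ∈ E, ∀ y ∈ E, ∀ z ∈ E, ∀ w ∈ E, (x + y) - (z + w) ∈ ann S →
      c x + c y = c z + c w := by
    intro x hx y hy z hz w hw hs
    have h5 : c x + c y - (c z + c w) ∈ LL N (4 * ρ) := by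
      have h6 := LL_add N (hLadd (hc x hx).1 (hc y hy).1) (hLadd (hc z hz).1 (hc w hw).1)
      have e1 : ρ + ρ + (ρ + ρ) = 4 * ρ := by ring
      rwa [e1] at h6
    have h7 : ψ₀ (c x + c y - (c z + c w)) ∈ ann S := by
      have a1 := (ann S).add_mem (hc x hx).2 (hc y hy).2
      have a2 := (ann S).add_mem (hc z hz).2 (hc w hw).2
      have a3 := (ann S).sub_mem hs ((ann S).sub_mem a1 a2)
      have e1 : x + y - (z + w) - (x - e - ψ₀ (c x) + (y - e - ψ₀ (c y)) -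
          (z - e - ψ₀ (c z) + (w - e - ψ₀ (c w)))) = ψ₀ (c x + c y - (c z + c w)) := by
        rw [map_sub, map_add, map_add]; abel
      rwa [e1] at a3
    exact sub_eq_zero.1 (hzero _ h5 h7)
  have hdoub := lift_doubling ⟨e, he⟩ c hfib hiso h3
  have himne : (E.image c).Nonempty := ⟨c e, Finset.mem_image_of_mem _ he⟩
  obtain ⟨S', T, hS', hT, hcov⟩ := marton_Zm himne hdoub
  obtain ⟨d, N', φ, hd, hN', hφinj, hNφ, hφsurj⟩ := subgroup_basis N hN S'
  -- pigeonhole over the cosets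
  have htx : ∀ x : G, ∃ t : Fin m → ℤ, x ∈ E → t ∈ T ∧
      c x - t ∈ AddSubgroup.closure (S' : Set (Fin m → ℤ)) := by
    intro x
    by_cases hx : x ∈ E
    · obtain ⟨t, ht, h⟩ := hcov _ (Finset.mem_image_of_mem c hx)
      exact ⟨t, fun _ => ⟨ht, h⟩⟩
    · exact ⟨0, fun h => absurd h hx⟩
  choose τ hτ using htx
  have hTne : (E.image τ).Nonempty := ⟨τ e, Finset.mem_image_of_mem _ he⟩
  obtain ⟨t0, ht0, hmax⟩ := Finset.exists_max_image (E.image τ)
    (fun z => (E.filter fun x => τ x = z).card) hTne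
  set E' := E.filter fun x => τ x = t0 with hE'
  have hEle : E.card ≤ E'.card * (E.image τ).card :=
    Finset.card_le_mul_card_image E E'.card (fun z hz => hmax z hz)
  have himT : (E.image τ).card ≤ T.card := by
    apply Finset.card_le_card
    intro z hz
    obtain ⟨x, hx, rfl⟩ := Finset.mem_image.1 hz
    exact (hτ x hx).1
  have hρ2 : (0 : ℝ) < 2 * ρ := by linarith
  refine ⟨d, {y | N' y ≤ 2 * ρ}, ψ₀.comp φ, E', Finset.filter_subset _ _, ?_, ?_,
    symmBody_ball N' hN' hρ2, inferInstance, ?_, ?_⟩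
  · calc (E.card : ℝ) ≤ (E'.card * (E.image τ).card : ℕ) := by exact_mod_cast hEle
      _ = (E'.card : ℝ) * ((E.image τ).card : ℝ) := by push_cast; ring
      _ ≤ (E'.card : ℝ) * K₁ ^ 185 := by
          apply mul_le_mul_of_nonneg_left _ (Nat.cast_nonneg _)
          exact le_trans (by exact_mod_cast himT) hT
      _ = _ := by ring
  · refine le_trans ?_ hS'
    exact_mod_cast hd
  · -- counting
    have hR : (2 * ρ : ℝ) ≤ 1 / 6 := by linarith
    obtain ⟨hLfin, hLcard⟩ := card_LL_le hfin hN h1 hρ2.le hR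
    refine le_trans ?_ hLcard
    apply Nat.mul_le_mul_right
    apply Set.ncard_le_ncard_of_injOn φ _ hφinj.injOn hLfin
    intro y hy
    have hy' : N' (fun i => (y i : ℝ)) ≤ 2 * ρ := hy
    rw [hNφ] at hy'
    exact hy'
  · intro x hx y hy
    obtain ⟨hxE, hxt⟩ := Finset.mem_filter.1 hx
    obtain ⟨hyE, hyt⟩ := Finset.mem_filter.1 hy
    have h5 : c x - c y ∈ AddSubgroup.closure (S' : Set (Fin m → ℤ)) := by
      have a1 := (hτ x hxE).2
      have a2 := (hτ y hyE).2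
      rw [hxt] at a1
      rw [hyt] at a2
      have a3 := (AddSubgroup.closure (S' : Set (Fin m → ℤ))).sub_mem a1 a2
      have e1 : c x - t0 - (c y - t0) = c x - c y := by abel
      rwa [e1] at a3
    obtain ⟨z, hz⟩ := hφsurj _ h5
    refine ⟨z, ?_, (x - e - ψ₀ (c x)) - (y - e - ψ₀ (c y)),
      (ann S).sub_mem (hc x hxE).2 (hc y hyE).2, ?_⟩
    · show N' _ ≤ 2 * ρ
      rw [hNφ, hz]
      have h6 := LL_add N (hc x hxE).1 (hc y hyE).1
      have e1 : ρ + ρ = 2 * ρ := by ring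
      rw [e1] at h6
      exact h6
    · rw [AddMonoidHom.comp_apply, hz, map_sub]
      abel

end W860.PC
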