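import Pool.Agent.W860.PC.Core
import Pool.Agent.W860.PC.Step
import Pool.Agent.W860.PC.Num
import Pool.Agent.H112R2.Final
set_option autoImplicit false

/-! Assembly: Freiman-Ruzsa with polynomial covering numbers. -/

namespace W860.PC

open Finset H112
open scoped Pointwise

theorem triple_le {G : Type*} [AddCommGroup G] [DecidableEq G] {K : ℝ} {A : Finset G}
    (hA : A.Nonempty) (hK : ((A + A).card : ℝ) ≤ K * A.card) :
    ((A + A + A).card : ℝ) ≤ K ^ 3 * A.card := by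
  have hApos : (0 : ℝ) < A.card := by exact_mod_cast hA.card_pos
  have h1 := Finset.pluennecke_ruzsa_inequality_nsmul_add hA A 3
  have h2 : (3 : ℕ) • A = A + A + A := by
    rw [show (3 : ℕ) = 2 + 1 by norm_num, succ_nsmul, two_nsmul]
  rw [h2] at h1
  have h3 : ((A + A + A).card : ℝ) ≤ (((A + A).card : ℝ) / A.card) ^ 3 * A.card := by
    have h4 : (((A + A + A).card : ℚ≥0) : ℝ) ≤
        (((((A + A).card : ℚ≥0) / A.card) ^ 3 * A.card : ℚ≥0) : ℝ) := by exact_mod_cast h1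
    push_cast at h4
    exact h4
  refine h3.trans ?_
  apply mul_le_mul_of_nonneg_right _ hApos.le
  apply pow_le_pow_left₀ (by positivity)
  rw [div_le_iff₀ hApos]
  exact hK

theorem num_volume {κ η ε₀ b D lK : ℝ} {j : ℕ} (hκ69 : 0.69 < κ) (hε0 : 0 < ε₀) (hε1 : ε₀ ≤ 1)
    (hη : η = ε₀ / 12)
    (hj2 : (1 + η) ^ (2 * j) ≤ (1 + η) ^ 2 * (128 * κ ^ (4 * η)))
    (hb : b = 2 * κ / η * (1 + η) ^ (2 * j + 2)) (hD : D = 2 * κ / η) (hlogK : lK ≤ κ) :
    3 * Real.log 2 + (2 * b + 2 * lK + 2 * D) ≤ 30000 / ε₀ * κ ^ (1 + ε₀) := by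
  obtain ⟨hl1, hl2⟩ := log_bounds
  have hκ0 : 0 < κ := by linarith
  have hη0 : 0 < η := by rw [hη]; positivity
  have hη12 : η ≤ 1 / 12 := by rw [hη]; linarith
  have h1η : (0 : ℝ) < 1 + η := by linarith
  have hη2 : (1 + η) ^ 2 ≤ 1.1737 := by nlinarith
  have hκη : 0 < κ / η := by positivity
  have hbeq : b = 2 * (1 + η) ^ 2 * (κ / η * (1 + η) ^ (2 * j)) := by
    rw [hb, pow_add]; ring
  have hble : b ≤ 2.3474 * (κ / η * (1 + η) ^ (2 * j)) := by
    rw [hbeq]
    apply mul_le_mul_of_nonneg_right _ (by positivity)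
    linarith
  have hηκ : κ ≤ 1 / 12 * (κ / η) := by
    rw [div_mul_div_comm, one_mul, le_div_iff₀ (by positivity)]
    nlinarith
  have hκε : κ / η = 12 / ε₀ * κ := by
    rw [hη]; field_simp
  have h9 : b ≤ 2.3474 * (κ / η * (1.1737 * (128 * κ ^ (4 * η)))) := by
    refine hble.trans ?_
    apply mul_le_mul_of_nonneg_left _ (by norm_num)
    apply mul_le_mul_of_nonneg_left _ hκη.le
    refine hj2.trans ?_
    apply mul_le_mul_of_nonneg_right hη2 (by positivity)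
  have h10 : κ ^ (4 * η) ≤ 1.3 * κ ^ ε₀ := by
    have e3 : κ ^ (4 * η) = κ ^ ε₀ * κ ^ (-(2 * ε₀ / 3)) := by
      rw [← Real.rpow_add hκ0]
      congr 1
      rw [hη]; ring
    rw [e3, mul_comm]
    apply mul_le_mul_of_nonneg_right _ (by positivity)
    rw [Real.rpow_def_of_pos hκ0]
    have h11 : -(2 * ε₀ / 3) * Real.log κ ≤ 0.26 := by
      by_cases hlk : 0 ≤ Real.log κ
      · have : 0 ≤ 2 * ε₀ / 3 * Real.log κ := by positivity
        linarith
      · push Not at hlk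
        have h12 : -(Real.log κ) ≤ 0.375 := by
          have h13 : Real.log (1 / κ) ≤ 0.375 := by
            rw [Real.log_le_iff_le_exp (by positivity)]
            have h14 : 1 / κ ≤ 1 / 0.69 := one_div_le_one_div_of_le (by norm_num) hκ69.le
            refine h14.trans ?_
            have h15 := Real.sum_le_exp_of_nonneg (x := 0.375) (by norm_num) 4
            refine le_trans ?_ h15
            norm_num [Finset.sum_range_succ, Nat.factorial]
          rw [Real.log_div (by norm_num) hκ0.ne', Real.log_one] at h13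
          linarith
        nlinarith
    have h16 : Real.log κ * -(2 * ε₀ / 3) ≤ 0.26 := by linarith
    refine (Real.exp_le_exp.2 h16).trans ?_
    have h17 := Real.exp_one_lt_d9
    have h18 : Real.exp 0.26 ^ 4 ≤ 1.3 ^ 4 := by
      rw [← Real.exp_nat_mul]
      have h19 : ((4 : ℕ) : ℝ) * 0.26 = 1 + 0.04 := by norm_num
      rw [h19, Real.exp_add]
      have h20 : Real.exp 0.04 ≤ 1.042 := by
        have := Real.exp_bound_div_one_sub_of_interval (x := 0.04) (by norm_num) (by norm_num)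
        refine this.trans ?_
        norm_num
      have h22 : Real.exp 1 * Real.exp 0.04 ≤ 2.719 * 1.042 :=
        mul_le_mul (by linarith) h20 (Real.exp_pos _).le (by norm_num)
      refine h22.trans ?_
      norm_num
    by_contra hcon
    push Not at hcon
    have h21 : (1.3 : ℝ) ^ 4 < Real.exp 0.26 ^ 4 := pow_lt_pow_left₀ hcon (by norm_num) (by norm_num)
    linarith
  have h22 : κ * κ ^ ε₀ = κ ^ (1 + ε₀) := by
    rw [Real.rpow_add hκ0, Real.rpow_one]
  have h23 : κ / η * κ ^ (4 * η) ≤ 15.6 / ε₀ * κ ^ (1 + ε₀) := by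
    rw [hκε, ← h22]
    calc 12 / ε₀ * κ * κ ^ (4 * η) ≤ 12 / ε₀ * κ * (1.3 * κ ^ ε₀) :=
          mul_le_mul_of_nonneg_left h10 (by positivity)
      _ = _ := by ring
  have h24 : κ / η ≤ 25 / ε₀ * κ ^ (1 + ε₀) := by
    have h25 : (0.69 : ℝ) ≤ κ ^ ε₀ := by
      by_cases hk1 : 1 ≤ κ
      · have := Real.one_le_rpow hk1 hε0.le
        linarith
      · push Not at hk1
        calc (0.69 : ℝ) ≤ κ := hκ69.le
          _ = κ ^ (1 : ℝ) := (Real.rpow_one κ).symm
          _ ≤ κ ^ ε₀ := Real.rpow_le_rpow_of_exponent_ge hκ0 hk1.le hε1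
    rw [hκε, ← h22]
    have h26 : 12 / ε₀ * κ * 1 ≤ 12 / ε₀ * κ * (κ ^ ε₀ / 0.69) := by
      apply mul_le_mul_of_nonneg_left _ (by positivity)
      rw [le_div_iff₀ (by norm_num)]
      linarith
    calc 12 / ε₀ * κ = 12 / ε₀ * κ * 1 := by ring
      _ ≤ 12 / ε₀ * κ * (κ ^ ε₀ / 0.69) := h26
      _ = (12 / 0.69) * (1 / ε₀ * (κ * κ ^ ε₀)) := by ring
      _ ≤ 25 * (1 / ε₀ * (κ * κ ^ ε₀)) :=
          mul_le_mul_of_nonneg_right (by norm_num) (by positivity)
      _ = _ := by ring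
  have h6 : D = 2 * (κ / η) := by rw [hD]; ring
  have h27 : b ≤ 352.7 * (κ / η * κ ^ (4 * η)) := by
    refine h9.trans ?_
    have h28 : 0 ≤ κ / η * κ ^ (4 * η) := by positivity
    nlinarith
  have h29 : 3 * Real.log 2 + (2 * b + 2 * lK + 2 * D) ≤
      705.4 * (κ / η * κ ^ (4 * η)) + 5 * (κ / η) := by
    linarith
  refine h29.trans ?_
  have h30 : 0 ≤ 1 / ε₀ * κ ^ (1 + ε₀) := by positivity
  calc 705.4 * (κ / η * κ ^ (4 * η)) + 5 * (κ / η)
      ≤ 705.4 * (15.6 / ε₀ * κ ^ (1 + ε₀)) + 5 * (25 / ε₀ * κ ^ (1 + ε₀)) := by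
        linarith
    _ = (705.4 * 15.6 + 125) * (1 / ε₀ * κ ^ (1 + ε₀)) := by ring
    _ ≤ 30000 * (1 / ε₀ * κ ^ (1 + ε₀)) := mul_le_mul_of_nonneg_right (by norm_num) h30
    _ = _ := by ring

/-- polynomial covering, finitely generated groups -/
theorem poly_cover_fg {G : Type*} [AddCommGroup G] [AddGroup.FG G] [DecidableEq G] {K ε₀ : ℝ}
    {A : Finset G} (hA : A.Nonempty) (hK : ((A + A).card : ℝ) ≤ K * A.card) (hK1 : 1 ≤ K)
    (hε0 : 0 < ε₀) (hε1 : ε₀ ≤ 1) :
    ∃ (d : ℕ) (B : Set (Fin d → ℝ)) (ψ : (Fin d → ℤ) →+ G) (H₀ : AddSubgroup G) (T : Finset G),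
      (d : ℝ) ≤ 30000 / ε₀ * Real.log (2 * K) ∧ SymmBody B ∧ Finite H₀ ∧
      ((({c : Fin d → ℤ | (fun i => (c i : ℝ)) ∈ B}.ncard * Nat.card H₀ : ℕ)) : ℝ) ≤
        Real.exp (30000 / ε₀ * Real.log (2 * K) ^ (1 + ε₀)) * A.card ∧
      (T.card : ℝ) ≤ (2 * K) ^ (30000 / ε₀) ∧
      Covers B ψ H₀ T A := by
  classical
  obtain ⟨hl1, hl2⟩ := log_bounds
  obtain ⟨κ, hκ⟩ : ∃ κ : ℝ, κ = Real.log (2 * K) := ⟨_, rfl⟩
  have hK0 : (0 : ℝ) < K := by linarith
  have hκlog2 : Real.log 2 ≤ κ := by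
    rw [hκ]; exact Real.log_le_log (by norm_num) (by linarith)
  have hκ69 : (0.69 : ℝ) < κ := lt_of_lt_of_le hl1 hκlog2
  have hκ0 : 0 < κ := by linarith
  have hlogK : Real.log K ≤ κ := by
    rw [hκ]; exact Real.log_le_log hK0 (by linarith)
  have hlogK0 : 0 ≤ Real.log K := Real.log_nonneg hK1
  obtain ⟨η, hη⟩ : ∃ η : ℝ, η = ε₀ / 12 := ⟨_, rfl⟩
  have hη0 : 0 < η := by rw [hη]; positivity
  have hη12 : η ≤ 1 / 12 := by rw [hη]; linarith
  obtain ⟨j, hj1, hj2⟩ := choose_j hκ69 hη0 hη12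
  obtain ⟨b, hb⟩ : ∃ b : ℝ, b = 2 * κ / η * (1 + η) ^ (2 * j + 2) := ⟨_, rfl⟩
  obtain ⟨D, hD⟩ : ∃ D : ℝ, D = 2 * κ / η := ⟨_, rfl⟩
  obtain ⟨ε, hε⟩ : ∃ ε : ℝ, ε = 2 * κ / η * (1 + η) ^ (j + 2) / 2 ^ j := ⟨_, rfl⟩
  have h1η : (0 : ℝ) < 1 + η := by linarith
  have hη2 : (1 + η) ^ 2 ≤ 1.1737 := by nlinarith
  have hκη : 0 < κ / η := by positivity
  -- the radius
  have hpowj : (0 : ℝ) < 2 ^ j := by positivity
  have hεle : ε ≤ 2.3474 / 10000 := by
    rw [hε, div_le_iff₀ hpowj]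
    have h1 : (1 + η) ^ (j + 2) ≤ 1.1737 * (1 + η) ^ (2 * j) := by
      have h2 : (1 + η) ^ (j + 2) = (1 + η) ^ 2 * (1 + η) ^ j := by
        rw [← pow_add]; congr 1; ring
      have h3 : (1 + η) ^ j ≤ (1 + η) ^ (2 * j) :=
        pow_le_pow_right₀ (by linarith) (by omega)
      rw [h2]
      exact mul_le_mul hη2 h3 (by positivity) (by norm_num)
    calc 2 * κ / η * (1 + η) ^ (j + 2) ≤ 2 * κ / η * (1.1737 * (1 + η) ^ (2 * j)) :=
          mul_le_mul_of_nonneg_left h1 (by positivity)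
      _ = 2.3474 / 10000 * (10000 * (κ / η) * (1 + η) ^ (2 * j)) := by ring
      _ ≤ 2.3474 / 10000 * 2 ^ j := mul_le_mul_of_nonneg_left hj1 (by norm_num)
  have hεpos : 0 < ε := by rw [hε]; positivity
  have hρ12 : 4 * Real.sqrt ε ≤ 1 / 12 := by
    have h1 : Real.sqrt ε ≤ 1 / 48 := by
      apply Real.sqrt_le_iff.2
      constructor
      · norm_num
      · refine hεle.trans ?_
        norm_num
    linarith
  -- the size of b
  have hbeq : b = 2 * (1 + η) ^ 2 * (κ / η * (1 + η) ^ (2 * j)) := by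
    rw [hb, pow_add]; ring
  have hble : b ≤ 2.3474 * (κ / η * (1 + η) ^ (2 * j)) := by
    rw [hbeq]
    apply mul_le_mul_of_nonneg_right _ (by positivity)
    linarith
  have hone : (1 : ℝ) ≤ (1 + η) ^ (2 * j) := one_le_pow₀ (by linarith)
  have hb0 : 0 ≤ b := by rw [hb]; positivity
  have hD0 : 0 ≤ D := by rw [hD]; positivity
  have hηκ : κ ≤ 1 / 12 * (κ / η) := by
    rw [div_mul_div_comm, one_mul, le_div_iff₀ (by positivity)]
    nlinarith
  have h4 : (1 / 4 : ℝ) ^ (2 ^ j) ≤ Real.exp (-(2 * b + 2 * Real.log K + 2 * D)) / 4 := by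
    have e1 : (1 / 4 : ℝ) ^ (2 ^ j) = Real.exp (-(((2 ^ j : ℕ) : ℝ) * (2 * Real.log 2))) := by
      rw [Real.exp_neg, Real.exp_nat_mul, show (2 : ℝ) * Real.log 2 = (2 : ℕ) * Real.log 2 by
        norm_num, Real.exp_nat_mul, Real.exp_log (by norm_num), one_div, inv_pow]
      norm_num
    have e2 : Real.exp (-(2 * b + 2 * Real.log K + 2 * D)) / 4 =
        Real.exp (-(2 * b + 2 * Real.log K + 2 * D + 2 * Real.log 2)) := by
      have e3 : Real.exp (2 * Real.log 2) = 4 := by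
        rw [show (2 : ℝ) * Real.log 2 = (2 : ℕ) * Real.log 2 by norm_num, Real.exp_nat_mul,
          Real.exp_log (by norm_num)]
        norm_num
      rw [show -(2 * b + 2 * Real.log K + 2 * D + 2 * Real.log 2) =
        -(2 * b + 2 * Real.log K + 2 * D) + -(2 * Real.log 2) by ring, Real.exp_add,
        Real.exp_neg (2 * Real.log 2), e3]
      ring
    rw [e1, e2]
    apply Real.exp_le_exp.2
    apply neg_le_neg
    push_cast
    have h5 : κ / η ≤ κ / η * (1 + η) ^ (2 * j) := le_mul_of_one_le_right hκη.le hone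
    have h6 : D = 2 * (κ / η) := by rw [hD]; ring
    have h7 : (2 : ℝ) ^ j * (2 * 0.69) ≤ 2 ^ j * (2 * Real.log 2) :=
      mul_le_mul_of_nonneg_left (by linarith) hpowj.le
    nlinarith
  obtain ⟨S, E, hfin, hsize, hEA, hEcard, hEE⟩ :=
    core_eta hA hK hη0 j hκ hκ0.le hb hD hε h4
  have hApos : (0 : ℝ) < A.card := by exact_mod_cast hA.card_pos
  have hEpos : (0 : ℝ) < E.card := lt_of_lt_of_le (by positivity) hEcard
  have hEne : E.Nonempty := by
    rw [← Finset.card_pos]; exact_mod_cast hEpos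
  have hAE : (A.card : ℝ) ≤ Real.exp (2 * D + 1) * E.card := by
    have h3 : (A.card : ℝ) = Real.exp (2 * D + 1) * (A.card * Real.exp (-(2 * D + 1))) := by
      rw [Real.exp_neg]; field_simp
    rw [h3]
    exact mul_le_mul_of_nonneg_left hEcard (Real.exp_pos _).le
  have hρ0 : 0 < 4 * Real.sqrt ε := by positivity
  obtain ⟨K₁, hK₁⟩ : ∃ K₁ : ℝ, K₁ = Real.exp (3 * κ + (2 * D + 1)) := ⟨_, rfl⟩
  have hKκ : K ≤ Real.exp κ := by
    rw [hκ, Real.exp_log (by linarith)]; linarith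
  have hE3 : ((E + E + E).card : ℝ) ≤ K₁ * E.card := by
    have h1 : ((E + E + E).card : ℝ) ≤ ((A + A + A).card : ℝ) := by
      exact_mod_cast Finset.card_le_card
        (Finset.add_subset_add (Finset.add_subset_add hEA hEA) hEA)
    have h2 := triple_le hA hK
    calc ((E + E + E).card : ℝ) ≤ K ^ 3 * A.card := h1.trans h2
      _ ≤ Real.exp κ ^ 3 * (Real.exp (2 * D + 1) * E.card) := by
          apply mul_le_mul (pow_le_pow_left₀ hK0.le hKκ 3) hAE hApos.le (by positivity)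
      _ = K₁ * E.card := by
          have e5 : Real.exp (3 * κ + (2 * D + 1)) = Real.exp κ ^ 3 * Real.exp (2 * D + 1) := by
            rw [Real.exp_add (3 * κ), ← Real.exp_nat_mul]
            norm_num
          rw [hK₁, e5]
          ring
  obtain ⟨d, B, ψ, E', hE'E, hE'card, hd, hB, hH, hvol, hdiff⟩ :=
    lift_step S hfin hEne hρ0 hρ12 hEE hE3
  have hlogK₁ : Real.log K₁ = 3 * κ + (2 * D + 1) := by rw [hK₁, Real.log_exp]
  have hDη : 2 * D + 1 ≤ 4 * (κ / η) + 1.45 * κ := by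
    have h6 : D = 2 * (κ / η) := by rw [hD]; ring
    linarith
  have hκε : κ / η = 12 / ε₀ * κ := by
    rw [hη]; field_simp
  -- covering
  have hcov : ((A + E').card : ℝ) ≤ Real.exp (κ + (2 * D + 1) + 185 * (3 * κ + (2 * D + 1))) *
      E'.card := by
    have h1 : ((A + E').card : ℝ) ≤ (A + A).card := by
      exact_mod_cast Finset.card_le_card (Finset.add_subset_add_left (hE'E.trans hEA))
    calc ((A + E').card : ℝ) ≤ K * A.card := h1.trans hK
      _ ≤ Real.exp κ * (Real.exp (2 * D + 1) * (K₁ ^ 185 * E'.card)) := by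
          apply mul_le_mul hKκ _ hApos.le (Real.exp_pos _).le
          exact hAE.trans (mul_le_mul_of_nonneg_left hE'card (Real.exp_pos _).le)
      _ = _ := by
          have e5 : Real.exp (κ + (2 * D + 1) + 185 * (3 * κ + (2 * D + 1))) =
              Real.exp κ * Real.exp (2 * D + 1) * Real.exp (3 * κ + (2 * D + 1)) ^ 185 := by
            rw [← Real.exp_nat_mul, ← Real.exp_add, ← Real.exp_add]
            norm_num
          rw [hK₁, e5]
          ring
  have hE'ne : E'.Nonempty := by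
    rw [← Finset.card_pos]
    by_contra h0
    have h1 : E'.card = 0 := by omega
    rw [h1] at hE'card
    simp only [Nat.cast_zero, mul_zero] at hE'card
    linarith
  obtain ⟨T, hTA, hTcard, hT⟩ := Finset.ruzsa_covering_add hE'ne hcov
  refine ⟨d, B, ψ, ann S, T, ?_, hB, hH, ?_, ?_, ?_⟩
  · rw [← hκ]
    rw [hlogK₁] at hd
    calc (d : ℝ) ≤ 480 * (3 * κ + (2 * D + 1)) + 1 := hd
      _ ≤ 2500 * (κ / η) := by nlinarith
      _ = 30000 / ε₀ * κ := by rw [hκε]; ring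
  · have h1 : (({c : Fin d → ℤ | (fun i => (c i : ℝ)) ∈ B}.ncard * Nat.card (ann S) : ℕ) : ℝ) ≤
        ((bohr S (1 / 6)).ncard : ℝ) := Nat.cast_le.2 hvol
    refine h1.trans (hsize.trans ?_)
    apply mul_le_mul_of_nonneg_right _ hApos.le
    rw [← hκ]
    have h8 : (8 : ℝ) = Real.exp (3 * Real.log 2) := by
      rw [show (3 : ℝ) * Real.log 2 = (3 : ℕ) * Real.log 2 by norm_num, Real.exp_nat_mul,
        Real.exp_log (by norm_num)]
      norm_num
    rw [h8, ← Real.exp_add]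
    apply Real.exp_le_exp.2
    exact num_volume hκ69 hε0 hε1 hη hj2 hb hD hlogK
  · refine hTcard.trans ?_
    rw [Real.rpow_def_of_pos (by linarith), ← hκ]
    apply Real.exp_le_exp.2
    calc κ + (2 * D + 1) + 185 * (3 * κ + (2 * D + 1)) ≤ 2500 * (κ / η) := by nlinarith
      _ = κ * (30000 / ε₀) := by rw [hκε]; ring
  · intro a ha
    obtain ⟨t, ht, z, hz, htz⟩ := Finset.mem_add.1 (hT ha)
    obtain ⟨u, hu, v, hv, huv⟩ := Finset.mem_sub.1 hz
    obtain ⟨c, hc, h, hh, hch⟩ := hdiff u hu v hv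
    refine ⟨t, ht, c, hc, h, hh, ?_⟩
    rw [← htz, ← huv, hch, add_assoc]

/-- **Freiman-Ruzsa theorem in an arbitrary abelian group with polynomial covering numbers.** -/
theorem poly_cover {G : Type*} [AddCommGroup G] [DecidableEq G] {K ε₀ : ℝ}
    {A : Finset G} (hA : A.Nonempty) (hK : ((A + A).card : ℝ) ≤ K * A.card)
    (hε0 : 0 < ε₀) (hε1 : ε₀ ≤ 1) :
    ∃ (d : ℕ) (B : Set (Fin d → ℝ)) (ψ : (Fin d → ℤ) →+ G) (H₀ : AddSubgroup G) (T : Finset G),
      (d : ℝ) ≤ 30000 / ε₀ * Real.log (2 * K) ∧ SymmBody B ∧ Finite H₀ ∧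
      ((({c : Fin d → ℤ | (fun i => (c i : ℝ)) ∈ B}.ncard * Nat.card H₀ : ℕ)) : ℝ) ≤
        Real.exp (30000 / ε₀ * Real.log (2 * K) ^ (1 + ε₀)) * A.card ∧
      (T.card : ℝ) ≤ (2 * K) ^ (30000 / ε₀) ∧
      Covers B ψ H₀ T A := by
  classical
  have hApos : (0 : ℝ) < A.card := by exact_mod_cast hA.card_pos
  have hK1 : 1 ≤ K := by
    have h1 : (A.card : ℝ) ≤ (A + A).card := by
      exact_mod_cast Finset.card_le_card_add_right hA
    nlinarith
  obtain ⟨Γ, hΓ⟩ : ∃ Γ : AddSubgroup G, Γ = AddSubgroup.closure (A : Set G) := ⟨_, rfl⟩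
  obtain ⟨A', hA'⟩ := exists_model A Γ (fun a ha => by
    rw [hΓ]; exact AddSubgroup.subset_closure ha)
  have hinj : Function.Injective Γ.subtype := Γ.subtype_injective
  haveI : AddGroup.FG Γ := by
    rw [AddGroup.fg_iff_addSubgroup_fg]
    exact ⟨A, hΓ.symm⟩
  have hA'ne : A'.Nonempty := by
    rw [← hA'] at hA; exact Finset.image_nonempty.1 hA
  have hcard : A'.card = A.card := by
    rw [← hA', Finset.card_image_of_injective _ hinj]
  have hcard2 : (A' + A').card = (A + A).card := by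
    rw [← hA', ← Finset.image_add, Finset.card_image_of_injective _ hinj]
  have hK' : ((A' + A').card : ℝ) ≤ K * A'.card := by rw [hcard2, hcard]; exact hK
  obtain ⟨d, B, ψ, H₀, T, hd, hB, hH₀, hvol, hT, hcov⟩ :=
    poly_cover_fg hA'ne hK' hK1 hε0 hε1
  refine ⟨d, B, Γ.subtype.comp ψ, H₀.map Γ.subtype, T.image Γ.subtype, hd, hB, ?_, ?_, ?_, ?_⟩
  · have : (H₀.map Γ.subtype : Set G).Finite := by
      rw [AddSubgroup.coe_map]
      exact (Set.toFinite (H₀ : Set Γ)).image _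
    exact this.to_subtype
  · have h1 : Nat.card (H₀.map Γ.subtype) = Nat.card H₀ :=
      Nat.card_congr (H₀.equivMapOfInjective Γ.subtype hinj).toEquiv.symm
    rw [h1, ← hcard]
    exact hvol
  · refine le_trans ?_ hT
    exact_mod_cast Finset.card_image_le
  · intro a ha
    rw [← hA'] at ha
    obtain ⟨a', ha', rfl⟩ := Finset.mem_image.1 ha
    obtain ⟨t, ht, c, hc, h, hh, e⟩ := hcov a' ha'
    refine ⟨Γ.subtype t, Finset.mem_image_of_mem _ ht, c, hc, Γ.subtype h, ⟨h, hh, rfl⟩, ?_⟩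
    rw [e, map_add, map_add]
    rfl

end W860.PC
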