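import Pool.Agent.W860.PC.Grow
import Pool.Agent.H112R2.Main
set_option autoImplicit false

/-! The Bohr set extracted from a good pair. -/

namespace W860.PC

open Finset H112
open scoped Pointwise

variable {G : Type*} [AddCommGroup G]

/-- all the structure extracted from the set, before optimising parameters -/
theorem core_eta [AddGroup.FG G] [DecidableEq G] {K : ℝ} {A : Finset G} (hA : A.Nonempty)
    (hK : ((A + A).card : ℝ) ≤ K * A.card) {η : ℝ} (hη : 0 < η) (j : ℕ)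
    {κ b D ε : ℝ} (hκ : κ = Real.log (2 * K)) (hκ0 : 0 ≤ κ)
    (hb : b = 2 * κ / η * (1 + η) ^ (2 * j + 2))
    (hD : D = 2 * κ / η) (hε : ε = 2 * κ / η * (1 + η) ^ (j + 2) / 2 ^ j)
    (h4 : (1 / 4 : ℝ) ^ (2 ^ j) ≤ Real.exp (-(2 * b + 2 * Real.log K + 2 * D)) / 4) :
    ∃ (S : Set (G →+ UnitAddCircle)) (E : Finset G),
      (bohr S (1 / 6)).Finite ∧
      ((bohr S (1 / 6)).ncard : ℝ) ≤ (8 * Real.exp (2 * b + 2 * Real.log K + 2 * D)) * A.card ∧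
      E ⊆ A ∧ (A.card : ℝ) * Real.exp (-(2 * D + 1)) ≤ E.card ∧
      (∀ x ∈ E, ∀ y ∈ E, x - y ∈ bohr S (4 * Real.sqrt ε)) := by
  classical
  obtain ⟨p₁, p₂, hp₁, hp₂, hs₁, hs₂, hH₁, hH₂, hgrow⟩ :=
    exists_good_pair_eta hA hK hη (2 * j + 1)
  set q := p₁ * p₂ with hq
  have hqlaw : Law q := hp₁.mul hp₂
  rw [← hκ] at hH₁ hH₂ hgrow
  have hD₁ : Real.log A.card - D ≤ H p₁ := by
    rw [hD]; exact hH₁
  have hn1 : 1 ≤ 2 ^ j := Nat.one_le_two_pow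
  have hle : ∀ i : ℕ, 2 * κ * ((1 + η) ^ i - 1) / η ≤ 2 * κ / η * (1 + η) ^ i := by
    intro i
    rw [div_mul_eq_mul_div]
    apply div_le_div_of_nonneg_right _ hη.le
    apply mul_le_mul_of_nonneg_left _ (by linarith)
    linarith
  -- growth bound at 2^(2j+1)
  have hg1 : H (q ^ (2 * 2 ^ j * 2 ^ j)) ≤ (H p₁ + H p₂) / 2 + b := by
    have e1 : 2 * 2 ^ j * 2 ^ j = 2 ^ (2 * j + 1) := by ring
    rw [e1]
    have h := hgrow (2 * j + 1) le_rfl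
    have h2 := hle (2 * j + 1 + 1)
    have e2 : 2 * j + 1 + 1 = 2 * j + 2 := by omega
    rw [e2] at h h2
    rw [hb]
    linarith
  have hsz := bohr_size hA hK hp₁ hp₂ hs₁ hs₂ hD₁ (n := 2 ^ j) (m := 2 ^ j) hn1 hn1
    (b := b) hg1 h4
  -- near invariance
  have hinc : H (q ^ (2 ^ j + 1)) - H q ≤ ((2 ^ j : ℕ) : ℝ) * ε := by
    have h1 : H (q ^ (2 ^ j + 1)) ≤ H (q ^ (2 ^ (j + 1))) := by
      have e1 : q ^ (2 ^ (j + 1)) = q ^ (2 ^ j + 1) * q ^ (2 ^ j - 1) := by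
        rw [← pow_add]; congr 1
        have : 2 ^ (j + 1) = 2 ^ j + 2 ^ j := by ring
        omega
      rw [e1]
      exact H_le_mul (hqlaw.pow _) (hqlaw.pow _)
    have h2 := hgrow (j + 1) (by omega)
    have h3 : (H p₁ + H p₂) / 2 ≤ H q := by
      have a1 : H p₁ ≤ H q := H_le_mul hp₁ hp₂
      have a2 : H p₂ ≤ H q := by
        rw [hq, mul_comm]; exact H_le_mul hp₂ hp₁
      linarith
    have h4' : ((2 ^ j : ℕ) : ℝ) * ε = 2 * κ / η * (1 + η) ^ (j + 2) := by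
      rw [hε]; push_cast
      field_simp
    rw [h4']
    have h5 := hle (j + 1 + 1)
    have e2 : j + 1 + 1 = j + 2 := by omega
    rw [e2] at h2 h5
    linarith
  obtain ⟨E, hEA, hEcard, hE⟩ := near_invariance hp₁ hp₂ hs₁ hn1 hD₁ hinc
  rw [← hq] at hE
  refine ⟨{γ | 1 / 2 ≤ ‖ft (q ^ 2 ^ j) γ‖}, E, hsz.1, ?_, hEA, hEcard, ?_⟩
  · refine hsz.2.trans (le_of_eq ?_)
    ring
  · intro x hx y hy γ hγ
    exact hE x hx y hy γ hγ

end W860.PC
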