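import Pool.Agent.H112R2.Main
import Pool.Agent.H137R2.Weak.Final
set_option autoImplicit false

/-! Reducing the dimension: the part of a set in a Bohr set which lies in a coset of a subgroup of
small rank. -/

namespace W860.PC

open Finset H112
open scoped Pointwise

/-- weak Marton for any decidable equality -/
theorem marton_dec {Γ : Type*} [AddCommGroup Γ] [d : DecidableEq Γ] {K : ℝ} {A : Finset Γ}
    (hA : A.Nonempty) (hK : ((A + A).card : ℝ) ≤ K * A.card) :
    ∃ (P : AddSubgroup Γ) (S T : Finset Γ), Finite P ∧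
      (S.card : ℝ) ≤ 480 * Real.log K + 1 ∧ (T.card : ℝ) ≤ K ^ 185 ∧
      ∀ a ∈ A, ∃ t ∈ T, ∃ o : Γ, (∃ m : ℕ, Odd m ∧ m • o = 0) ∧
        a - t - o ∈ P ⊔ AddSubgroup.closure (S : Set Γ) := by
  have hd : d = (fun a b => Classical.propDecidable (a = b)) := Subsingleton.elim _ _
  subst hd
  obtain ⟨P, S, T, h1, -, -, h4, -, h6, h7⟩ := H137.Weak.weak_marton hA hK
  exact ⟨P, S, T, h1, h4, h6, h7⟩

/-- weak Marton in `ℤ^m` -/
theorem marton_Zm {m : ℕ} {K : ℝ} {A : Finset (Fin m → ℤ)} (hA : A.Nonempty)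
    (hK : ((A + A).card : ℝ) ≤ K * A.card) :
    ∃ (S T : Finset (Fin m → ℤ)), (S.card : ℝ) ≤ 480 * Real.log K + 1 ∧
      (T.card : ℝ) ≤ K ^ 185 ∧
      ∀ a ∈ A, ∃ t ∈ T, a - t ∈ AddSubgroup.closure (S : Set (Fin m → ℤ)) := by
  obtain ⟨P, S, T, hPfin, hS, hT, hcov⟩ := marton_dec hA hK
  have htf : ∀ (x : Fin m → ℤ) (k : ℕ), k ≠ 0 → k • x = 0 → x = 0 := by
    intro x k hk hx
    funext i
    have h1 := congrFun hx i
    simp only [Pi.smul_apply, Pi.zero_apply, nsmul_eq_mul, mul_eq_zero, Nat.cast_eq_zero] at h1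
    rcases h1 with h1 | h1
    · exact absurd h1 hk
    · exact h1
  have hP : P = ⊥ := by
    rw [eq_bot_iff]
    intro x hx
    rw [AddSubgroup.mem_bot]
    apply htf x (Nat.card P) Nat.card_pos.ne'
    have h1 : Nat.card P • (⟨x, hx⟩ : P) = 0 := card_nsmul_eq_zero'
    have h3 := congrArg P.subtype h1
    rw [map_nsmul, map_zero] at h3
    exact h3
  refine ⟨S, T, hS, hT, ?_⟩
  intro a ha
  obtain ⟨t, ht, o, ⟨k, hk, hko⟩, h⟩ := hcov a ha
  refine ⟨t, ht, ?_⟩
  have ho : o = 0 := htf o k (by rintro rfl; simp at hk) hko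
  rw [ho, sub_zero, hP, bot_sup_eq] at h
  exact h

variable {G : Type*} [AddCommGroup G]

/-- the lift of a subset of a Bohr set has small doubling -/
theorem lift_doubling [DecidableEq G] {m : ℕ} {E : Finset G} (hE : E.Nonempty)
    (c : G → (Fin m → ℤ)) {Q : AddSubgroup G}
    (hfib : ∀ x ∈ E, ∀ y ∈ E, c x = c y → x - y ∈ Q)
    (hiso : ∀ x ∈ E, ∀ y ∈ E, ∀ z ∈ E, ∀ w ∈ E, (x + y) - (z + w) ∈ Q → c x + c y = c z + c w)
    {K₁ : ℝ} (h3 : ((E + E + E).card : ℝ) ≤ K₁ * E.card) :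
    ((E.image c + E.image c).card : ℝ) ≤ K₁ * (E.image c).card := by
  classical
  -- the largest fibre
  obtain ⟨z0, hz0, hmax⟩ := Finset.exists_max_image (E.image c)
    (fun z => (E.filter fun x => c x = z).card) (hE.image c)
  set F := E.filter fun x => c x = z0 with hF
  have hFpos : 0 < F.card := by
    obtain ⟨x, hx, hxz⟩ := Finset.mem_image.1 hz0
    exact Finset.card_pos.2 ⟨x, Finset.mem_filter.2 ⟨hx, hxz⟩⟩
  have hEle : E.card ≤ F.card * (E.image c).card :=
    Finset.card_le_mul_card_image E F.card (fun z hz => hmax z hz)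
  -- choose representatives
  have hrep : ∀ w : (Fin m → ℤ), ∃ xy : G × G, w ∈ E.image c + E.image c →
      xy.1 ∈ E ∧ xy.2 ∈ E ∧ c xy.1 + c xy.2 = w := by
    intro w
    by_cases hw : w ∈ E.image c + E.image c
    · obtain ⟨u, hu, v, hv, huv⟩ := Finset.mem_add.1 hw
      obtain ⟨x, hx, rfl⟩ := Finset.mem_image.1 hu
      obtain ⟨y, hy, rfl⟩ := Finset.mem_image.1 hv
      exact ⟨(x, y), fun _ => ⟨hx, hy, huv⟩⟩
    · exact ⟨(0, 0), fun h => absurd h hw⟩
  choose r hr using hrep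
  have hcard : ((E.image c + E.image c) ×ˢ F).card ≤ (E + E + E).card := by
    apply Finset.card_le_card_of_injOn (fun p => (r p.1).1 + (r p.1).2 + p.2)
    · rintro ⟨w, f⟩ hp
      obtain ⟨hw, hf⟩ := Finset.mem_product.1 hp
      obtain ⟨h1, h2, -⟩ := hr w hw
      exact Finset.add_mem_add (Finset.add_mem_add h1 h2) (Finset.mem_filter.1 hf).1
    · rintro ⟨w, f⟩ hp ⟨w', f'⟩ hp' heq
      have hp1 := Finset.mem_product.1 hp
      have hp2 := Finset.mem_product.1 hp'
      obtain ⟨hw, hf⟩ := hp1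
      obtain ⟨hw', hf'⟩ := hp2
      simp only at hw hf hw' hf' heq
      obtain ⟨h1, h2, h12⟩ := hr w hw
      obtain ⟨h1', h2', h12'⟩ := hr w' hw'
      obtain ⟨hfE, hfz⟩ := Finset.mem_filter.1 hf
      obtain ⟨hfE', hfz'⟩ := Finset.mem_filter.1 hf'
      have hff : f' - f ∈ Q := hfib f' hfE' f hfE (hfz'.trans hfz.symm)
      have hd : ((r w).1 + (r w).2) - ((r w').1 + (r w').2) ∈ Q := by
        have e : ((r w).1 + (r w).2) - ((r w').1 + (r w').2) = f' - f := by
          rw [sub_eq_sub_iff_add_eq_add, heq]; abel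
        rw [e]; exact hff
      have hww : w = w' := by
        rw [← h12, ← h12']
        exact hiso _ h1 _ h2 _ h1' _ h2' hd
      subst hww
      have : f = f' := add_left_cancel heq
      rw [this]
  rw [Finset.card_product] at hcard
  have hFr : (0 : ℝ) < F.card := by exact_mod_cast hFpos
  have h5 : ((E.image c + E.image c).card : ℝ) * F.card ≤ K₁ * E.card := by
    refine le_trans ?_ h3
    exact_mod_cast hcard
  have hK : 0 ≤ K₁ := by
    have hEr : (0 : ℝ) < E.card := by exact_mod_cast hE.card_pos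
    by_contra hneg
    push Not at hneg
    have : K₁ * E.card < 0 := mul_neg_of_neg_of_pos hneg hEr
    have h0 : (0 : ℝ) ≤ ((E + E + E).card : ℝ) := by positivity
    linarith
  have h6 : (E.card : ℝ) ≤ F.card * (E.image c).card := by exact_mod_cast hEle
  have h7 : ((E.image c + E.image c).card : ℝ) * F.card ≤ (K₁ * (E.image c).card) * F.card := by
    calc ((E.image c + E.image c).card : ℝ) * F.card ≤ K₁ * E.card := h5
      _ ≤ K₁ * (F.card * (E.image c).card) := mul_le_mul_of_nonneg_left h6 hK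
      _ = _ := by ring
  exact le_of_mul_le_mul_right h7 hFr

/-- a subgroup of `ℤ^m` generated by few elements is the image of a small `ℤ^d`, and norms pull
back. -/
theorem subgroup_basis {m : ℕ} (N : Seminorm ℝ (Fin m → ℝ)) (hN : ∀ x, N x = 0 → x = 0)
    (S : Finset (Fin m → ℤ)) :
    ∃ (d : ℕ) (N' : Seminorm ℝ (Fin d → ℝ)) (φ : (Fin d → ℤ) →+ (Fin m → ℤ)),
      d ≤ S.card ∧ (∀ x, N' x = 0 → x = 0) ∧ Function.Injective φ ∧
      (∀ c : Fin d → ℤ, N' (fun i => (c i : ℝ)) = N (fun i => (φ c i : ℝ))) ∧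
      ∀ z ∈ AddSubgroup.closure (S : Set (Fin m → ℤ)), ∃ c, φ c = z := by
  classical
  set L : Submodule ℤ (Fin m → ℤ) := Submodule.span ℤ (S : Set (Fin m → ℤ)) with hL
  obtain ⟨d, b⟩ := Submodule.basisOfPid (Pi.basisFun ℤ (Fin m)) L
  have hd : d ≤ S.card := by
    have h1 : Module.finrank ℤ L = d := by
      rw [Module.finrank_eq_card_basis b, Fintype.card_fin]
    rw [← h1, hL]
    exact finrank_span_finset_le_card S
  let v : Fin d → (Fin m → ℤ) := fun i => (b i : Fin m → ℤ)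
  have hvZ : LinearIndependent ℤ v := b.linearIndependent.map' L.subtype (Submodule.ker_subtype L)
  have hvR : LinearIndependent ℝ (fun i => (algebraMap ℤ ℝ) ∘ v i) :=
    linearIndependent_algebraMap_comp_iff.2 hvZ
  let w : Fin d → (Fin m → ℝ) := fun i => (algebraMap ℤ ℝ) ∘ v i
  let Φ : (Fin d → ℝ) →ₗ[ℝ] (Fin m → ℝ) := Fintype.linearCombination ℝ w
  have hΦ : Function.Injective Φ := hvR.fintypeLinearCombination_injective
  let φ : (Fin d → ℤ) →+ (Fin m → ℤ) := (Fintype.linearCombination ℤ v).toAddMonoidHom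
  have hφ : ∀ c : Fin d → ℤ, φ c = ∑ i, c i • v i := fun c => rfl
  refine ⟨d, N.comp Φ, φ, hd, ?_, ?_, ?_, ?_⟩
  · intro x hx
    have h1 : N (Φ x) = 0 := hx
    have h2 := hN _ h1
    exact hΦ (h2.trans (map_zero Φ).symm)
  · intro c c' h
    exact hvZ.fintypeLinearCombination_injective h
  · intro c
    have h1 : Φ (fun i => (c i : ℝ)) = fun i => (φ c i : ℝ) := by
      funext k
      rw [hφ]
      change (∑ i, (c i : ℝ) • w i) k = _
      rw [Finset.sum_apply, Finset.sum_apply]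
      push_cast
      apply Finset.sum_congr rfl
      intro i _
      simp [w]
    change N (Φ _) = _
    rw [h1]
  · intro z hz
    have hzL : z ∈ L := by
      rw [hL, ← Submodule.mem_toAddSubgroup, Submodule.span_int_eq_addSubgroupClosure]
      exact hz
    refine ⟨fun i => b.repr ⟨z, hzL⟩ i, ?_⟩
    rw [hφ]
    have h1 := b.sum_repr ⟨z, hzL⟩
    have h2 := congrArg L.subtype h1
    rw [map_sum] at h2
    simpa [v] using h2

end W860.PC
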